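import Mathlib
import Pool.Agent.H60.OrbitRank

set_option autoImplicit false

namespace Pool.Agent.Results.MP_7a24ab_lc.AlephOneOrbits

/-- On every countably infinite set there is a permutation group with exactly `ℵ₁` orbits on the
power set. If the continuum hypothesis fails, this number lies strictly between `ℵ₀` and
`2 ^ ℵ₀`. -/
theorem result :
    ∀ (Ω : Type) [Countable Ω] [Infinite Ω],
      ∃ (H : Subgroup (Equiv.Perm Ω)) (κ : Cardinal.{0}),
        κ = Cardinal.mk (Set.range fun A : Set Ω => {B : Set Ω | ∃ h ∈ H, h '' A = B}) ∧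
        κ = Cardinal.aleph 1 ∧
        ((2 : Cardinal.{0}) ^ Cardinal.aleph0.{0} ≠ Cardinal.aleph 1 →
          Cardinal.aleph0 < κ ∧ κ < (2 : Cardinal.{0}) ^ Cardinal.aleph0.{0}) := by
  intro Ω _ _
  obtain ⟨d⟩ := nonempty_denumerable Ω
  obtain ⟨H, hH⟩ := Pool.Agent.H60.OrbitRank.exists_group_of_equiv (Denumerable.equiv₂ Ω ℚ)
  refine ⟨H, _, rfl, hH, fun hCH => ?_⟩
  have h1 : Cardinal.mk (Set.range fun A : Set Ω => {B : Set Ω | ∃ h ∈ H, h '' A = B}) =
      Cardinal.aleph 1 := hH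
  rw [h1]
  refine ⟨Cardinal.aleph0_lt_aleph_one, lt_of_le_of_ne ?_ hCH.symm⟩
  rw [Cardinal.two_power_aleph0]
  exact Cardinal.aleph_one_le_continuum

end Pool.Agent.Results.MP_7a24ab_lc.AlephOneOrbits
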